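import Pool.Agent.V7H49.Nef.Big
import Pool.Agent.V7H49.Nef.NonNeg

/-!
# A nef and big class on a compact Kähler surface without a smooth nonnegative representative

The surface is `X = B × B`, where `B = ℍ / Γ` is a closed Riemann surface whose injectivity radius is
at least `10` (`Γ` is a principal congruence subgroup of the norm one units of an order of the
quaternion algebra `(2, 3)` over `ℚ`). Let `ω₁`, `ω₂` be the forms `i dz ∧ dz̄ / (4 y²)` of the two
factors (so that `ω₁ + ω₂` is a Kähler form `κ`), and let `s (z, w) = |z - w|² / (4 Im z Im w)`. With a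
cut-off function `A`, `A = 1` on `s ≤ 1` and `A = 0` for `s ≥ 2`, and `F_ε (s) = - ∫_s^2 A (t) / (t + ε) dt`
let `V_ε (z, w) = ∑_γ F_ε (s (z, γ w))`; `V_0` has a logarithmic pole along the diagonal `Δ`. The form
`α = ω₁ / 2 + 3 ω₂ / 2 - i ∂∂̄ V_0` (outside `Δ`; it is `(ω₂ - ω₁) / 2` near `Δ`) is smooth and closed on `X`.

* `α + i ∂∂̄ V_ε ≥ - ε κ`: the class of `α` is nef.
* `α + i ∂∂̄ V_0 ≥ κ / 2` in the sense of currents: the class of `α` is big.
* Suppose that `θ = α + i ∂∂̄ u ≥ 0` with `u` smooth. Along the diagonal `θ (v, v)` for the vectors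
  `v = (1 + t, 1)` is `- (2 t + t²) / (8 y²)` plus `div λ / 4 + t div μ / 2 + t² g`, where `λ` and `μ` are
  one-forms on `B` (restrictions to the diagonal of partial differentials of `u`) and `g` is a function.
  By the theorem of Stokes the integral over `B` is `- (2 t + t²) a + t² b` with `a > 0`, and it is
  negative for small `t > 0`.
-/

set_option autoImplicit false

open scoped Manifold ContDiff

namespace Pool.Agent.Results.MP_4ff127_gt.NefBigNotSemipositiveH49

open Pool.Agent.V7H49.Nef

/-- There is a compact connected Kähler surface with a nef and big class which contains no smooth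
closed `(1,1)`-form that is nonnegative at every point. -/
theorem result : ∃ (X : Type) (_ : TopologicalSpace X) (_ : ChartedSpace (ℂ × ℂ) X),
    T2Space X ∧ CompactSpace X ∧ ConnectedSpace X ∧ IsManifold 𝓘(ℂ, ℂ × ℂ) ω X ∧
    ∃ κ α : Form X, IsKahlerForm κ ∧ IsClosedForm α ∧ IsNef κ α ∧ IsBig κ α ∧ ¬ HasNonnegRep α :=
  ⟨XX, inferInstance, inferInstance, inferInstance, inferInstance, inferInstance, inferInstance,
    kaX, alX, isKahler, isClosed_alX, isNef, isBig, notNonneg⟩

end Pool.Agent.Results.MP_4ff127_gt.NefBigNotSemipositiveH49
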